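import Pool.Agent.W397.LV2
import Pool.Agent.W257.LStm3

/-! LV-6: auxiliary polynomial with a rate of decay and a degree bound (helper45, for helper257);
adapted from `Pool.Agent.W397.LV2.main`. -/

set_option autoImplicit false

namespace Pool.Agent.W45.LV6

open MvPolynomial Pool.Agent.W397.LV2

theorem GG_deg2 {m n q : ℕ} (z : Ix m n q → ℤ) : (GG z).degreeOf 2 ≤ q := by
  classical
  rw [degreeOf_le_iff]
  intro d hd
  have h1 := support_sum hd
  rw [Finset.mem_biUnion] at h1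
  obtain ⟨i, -, hi⟩ := h1
  have h2 := support_monomial_subset hi
  rw [Finset.mem_singleton] at h2
  rw [h2, ddd2]
  exact i.2.2.2.le

theorem main : Pool.Agent.W257.S_aux2 := by
  intro m l hm
  obtain ⟨n, hn⟩ : ∃ n, n = 100 * m := ⟨_, rfl⟩
  obtain ⟨q, hq⟩ : ∃ q, q = (l + 1) * (100 * m) := ⟨_, rfl⟩
  obtain ⟨Ω, hΩ⟩ : ∃ Ω, Ω = (l + 2) * m + (l + 1) * n + q := ⟨_, rfl⟩
  refine ⟨Ω + 1 + (l + 1), q, fun Q => ?_⟩
  obtain ⟨c, hc0, hgood⟩ := exists_c m l n q hm hn hq Q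
  obtain ⟨b, hb⟩ := IsLocalization.exist_integer_multiples_of_finite (nonZeroDivisors ℤ) c
  have hb0 : (b : ℤ) ≠ 0 := nonZeroDivisors.ne_zero b.2
  choose z hz using hb
  have hz' : ∀ i, (z i : ℝ) = (b : ℤ) * (c i : ℝ) := by
    intro i
    have h1 : ((z i : ℤ) : ℚ) = (b : ℤ) * c i := by
      have := hz i
      rw [zsmul_eq_mul] at this
      exact this
    exact_mod_cast h1
  have hzne : z ≠ 0 := by
    intro h
    apply hc0
    funext i
    have h1 := hz' i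
    rw [h] at h1
    have h2 : ((b : ℤ) : ℝ) * (c i : ℝ) = 0 := by rw [← h1]; simp
    rcases mul_eq_zero.mp h2 with h3 | h3
    · exact absurd (by exact_mod_cast h3) hb0
    · show c i = 0
      exact_mod_cast h3
  refine ⟨GG z, GG_ne hzne, GG_deg (by omega) z, GG_deg2 z, fun C => ?_⟩
  obtain ⟨C1, hC1, hL⟩ := L_small hgood
  obtain ⟨M, hM, hQ⟩ := eval_le Q
  obtain ⟨C2, hC2⟩ : ∃ C2 : ℝ, C2 = M + |C| + 1 := ⟨_, rfl⟩
  have hC2' : 1 ≤ C2 := by have := abs_nonneg C; linarith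
  obtain ⟨Z, hZ⟩ : ∃ Z : ℝ, Z = ∑ i, |(z i : ℝ)| := ⟨_, rfl⟩
  have hZ0 : 0 ≤ Z := by rw [hZ]; exact Finset.sum_nonneg fun _ _ => abs_nonneg _
  refine ⟨|((b : ℤ) : ℝ)| * C1 + Z * (m * C2 ^ m * |C|), 1, fun x y t hA h1 h2 hx => ?_⟩
  have hbig : 0 ≤ |((b : ℤ) : ℝ)| * C1 + Z * (m * C2 ^ m * |C|) := by positivity
  have ht1 : 1 ≤ |t| := by linarith
  have hT0 : 0 < |t| := by linarith
  have ht : t ≠ 0 := abs_pos.mp hT0
  have hY1 : 1 ≤ |y| := (one_le_pow₀ ht1).trans h1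
  have hY0 : 0 < |y| := by linarith
  have hy : y ≠ 0 := abs_pos.mp hY0
  obtain ⟨X0, hX0⟩ : ∃ X0 : ℝ, X0 = t * y * aeval ![1 / t, 1 / (t * y)] Q := ⟨_, rfl⟩
  rw [← hX0] at hx
  -- the value at `X0`
  have hv : |aeval ![X0, y, t] (GG z)| * |t| ≤ |((b : ℤ) : ℝ)| * C1 := by
    have e : aeval ![X0, y, t] (GG z) = ((b : ℤ) : ℝ) *
        (t ^ q * (t * y) ^ (m + n) * aeval ![1 / t, 1 / (t * y)] (L m n q Q c)) := by
      rw [GG_eval, L_apply, map_sum, Finset.mul_sum, Finset.mul_sum]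
      refine Finset.sum_congr rfl fun i _ => ?_
      rw [map_smul, hz' i, hX0, ← eval_tm Q i ht hy, Rat.smul_def]
      ring
    rw [e, abs_mul, mul_assoc]
    exact mul_le_mul_of_nonneg_left (hL y t ht1 h1 h2) (abs_nonneg _)
  -- the difference
  obtain ⟨R, hR⟩ : ∃ R : ℝ, R = |x - X0| := ⟨_, rfl⟩
  have hR0 : 0 ≤ R := by rw [hR]; exact abs_nonneg _
  rw [← hR] at hx
  have hR1 : R * |t| ^ (Ω + 1) ≤ |C| := by
    have h3 : R * |t| ^ (Ω + 1) * |t| ^ (l + 1) ≤ |C| * |t| ^ (l + 1) := by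
      calc R * |t| ^ (Ω + 1) * |t| ^ (l + 1) = R * |t| ^ (Ω + 1 + (l + 1)) := by
            rw [pow_add]; ring
        _ ≤ C * |y| := hx
        _ ≤ |C| * |y| := by gcongr; exact le_abs_self C
        _ ≤ |C| * |t| ^ (l + 1) := by gcongr
    exact le_of_mul_le_mul_right h3 (by positivity)
  have hX0b : |X0| ≤ M * |t| ^ (l + 2) := by
    rw [hX0, abs_mul, abs_mul]
    have h4 : |aeval ![1 / t, 1 / (t * y)] Q| ≤ M := by
      apply hQ
      · rw [abs_div, abs_one, div_le_one hT0]; exact ht1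
      · rw [abs_div, abs_one, abs_mul, div_le_one (by positivity)]
        nlinarith
    calc |t| * |y| * |aeval ![1 / t, 1 / (t * y)] Q| ≤ |t| * |t| ^ (l + 1) * M := by gcongr
      _ = M * |t| ^ (l + 2) := by ring
  have hRb : R ≤ |C| := by
    refine le_trans ?_ hR1
    exact le_mul_of_one_le_right hR0 (one_le_pow₀ ht1)
  have hpow1 : 1 ≤ |t| ^ (l + 2) := one_le_pow₀ ht1
  have hxb : |x| ≤ (M + |C|) * |t| ^ (l + 2) := by
    have h5 : |x| ≤ |x - X0| + |X0| := by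
      have := abs_add_le (x - X0) X0
      rwa [sub_add_cancel] at this
    rw [← hR] at h5
    have h6 : |C| ≤ |C| * |t| ^ (l + 2) := le_mul_of_one_le_right (abs_nonneg _) hpow1
    linarith
  have hmax : max |x| |X0| ≤ C2 * |t| ^ (l + 2) := by
    apply max_le
    · refine hxb.trans ?_
      have : M + |C| ≤ C2 := by linarith
      gcongr
    · refine hX0b.trans ?_
      have : M ≤ C2 := by have := abs_nonneg C; linarith
      gcongr
  have hdiff : |aeval ![x, y, t] (GG z) - aeval ![X0, y, t] (GG z)| * |t| ≤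
      Z * (m * C2 ^ m * |C|) := by
    rw [GG_eval, GG_eval, ← Finset.sum_sub_distrib]
    refine (mul_le_mul_of_nonneg_right (Finset.abs_sum_le_sum_abs _ _) (abs_nonneg _)).trans ?_
    rw [hZ, Finset.sum_mul, Finset.sum_mul]
    refine Finset.sum_le_sum fun i _ => ?_
    obtain ⟨j, k, r⟩ := i
    have hj := j.2
    have hk := k.2
    have hr := r.2
    simp only
    have e : (z (j, k, r) : ℝ) * (x ^ (j : ℕ) * y ^ (k : ℕ) * t ^ (r : ℕ)) -
        (z (j, k, r) : ℝ) * (X0 ^ (j : ℕ) * y ^ (k : ℕ) * t ^ (r : ℕ)) =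
        (z (j, k, r) : ℝ) * ((x ^ (j : ℕ) - X0 ^ (j : ℕ)) * y ^ (k : ℕ) * t ^ (r : ℕ)) := by ring
    rw [e, abs_mul, mul_assoc]
    refine mul_le_mul_of_nonneg_left ?_ (abs_nonneg _)
    rw [abs_mul, abs_mul, abs_pow, abs_pow]
    have h7 := abs_pow_sub_pow_le x X0 (j : ℕ)
    rw [← hR] at h7
    have h8 : max |x| |X0| ^ ((j : ℕ) - 1) ≤ C2 ^ m * |t| ^ ((l + 2) * m) := by
      have hbase : 1 ≤ C2 * |t| ^ (l + 2) := by nlinarith
      calc max |x| |X0| ^ ((j : ℕ) - 1) ≤ (C2 * |t| ^ (l + 2)) ^ ((j : ℕ) - 1) := by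
            gcongr
        _ ≤ (C2 * |t| ^ (l + 2)) ^ m := pow_le_pow_right₀ hbase (by omega)
        _ = C2 ^ m * |t| ^ ((l + 2) * m) := by rw [mul_pow, ← pow_mul]
    have h9 : |x ^ (j : ℕ) - X0 ^ (j : ℕ)| ≤ R * m * (C2 ^ m * |t| ^ ((l + 2) * m)) := by
      refine h7.trans ?_
      have : ((j : ℕ) : ℝ) ≤ m := by exact_mod_cast hj.le
      gcongr
    have h10 : |y| ^ (k : ℕ) ≤ |t| ^ ((l + 1) * n) := by
      calc |y| ^ (k : ℕ) ≤ |y| ^ n := pow_le_pow_right₀ hY1 hk.le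
        _ ≤ (|t| ^ (l + 1)) ^ n := by gcongr
        _ = _ := by rw [← pow_mul]
    have h11 : |t| ^ (r : ℕ) ≤ |t| ^ q := pow_le_pow_right₀ ht1 hr.le
    calc |x ^ (j : ℕ) - X0 ^ (j : ℕ)| * |y| ^ (k : ℕ) * |t| ^ (r : ℕ) * |t|
        ≤ (R * m * (C2 ^ m * |t| ^ ((l + 2) * m))) * |t| ^ ((l + 1) * n) * |t| ^ q * |t| := by
          gcongr
      _ = m * C2 ^ m * (R * |t| ^ (Ω + 1)) := by
          rw [hΩ, pow_add, pow_add, pow_add, pow_one]; ring
      _ ≤ m * C2 ^ m * |C| := by gcongr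
  have h12 : |aeval ![x, y, t] (GG z)| ≤ |aeval ![x, y, t] (GG z) - aeval ![X0, y, t] (GG z)| +
      |aeval ![X0, y, t] (GG z)| := by
    have := abs_add_le (aeval ![x, y, t] (GG z) - aeval ![X0, y, t] (GG z))
      (aeval ![X0, y, t] (GG z))
    rwa [sub_add_cancel] at this
  have h13 := mul_le_mul_of_nonneg_right h12 hT0.le
  rw [add_mul] at h13
  linarith

end Pool.Agent.W45.LV6
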